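import Mathlib
import Pool.Agent.H.MP_9c4169_gt.A

set_option autoImplicit false

namespace Pool.Agent.H.MP_fc6768_gt

open Set Filter Topology Cardinal Function Pool.Agent.H.MP_9c4169_gt

/-- finite subsets of the naturals, as points of the Cantor space -/
def Fn : Set (ℕ → Bool) := {x | {n | x n = true}.Finite}

/-- `κ`-fin-unbounded, via increasing enumerations -/
def FU1 (κ : Cardinal.{0}) (X : Set (ℕ → Bool)) : Prop :=
  (∀ x ∈ X, {n | x n = true}.Infinite) ∧ κ ≤ #X ∧ ∀ d : ℕ → ℕ, StrictMono d → ∃ S ⊆ X, #S < κ ∧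
    ∀ F ⊆ X \ S, F.Finite → F.Nonempty →
      ∃ᶠ n in atTop, ∀ x ∈ F, d n ≤ Nat.nth (fun i => x i = true) n

/-- `κ`-fin-unbounded, via omitted intervals -/
def FU2 (κ : Cardinal.{0}) (X : Set (ℕ → Bool)) : Prop :=
  (∀ x ∈ X, {n | x n = true}.Infinite) ∧ κ ≤ #X ∧ ∀ d : ℕ → ℕ, StrictMono d → ∃ S ⊆ X, #S < κ ∧
    ∀ F ⊆ X \ S, F.Finite → ∃ᶠ n in atTop, ∀ x ∈ F, ∀ i ∈ Ico (d n) (d (n + 1)), x i = false

/-- the covering number of the meager ideal of the Baire space -/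
noncomputable def covM : Cardinal.{0} :=
  sInf {c | ∃ 𝓜 : Set (Set (ℕ → ℕ)), (∀ M ∈ 𝓜, IsMeagre M) ∧ ⋃₀ 𝓜 = Set.univ ∧ #𝓜 = c}

theorem fu12 {κ : Cardinal.{0}} {X : Set (ℕ → Bool)} (h : FU1 κ X) : FU2 κ X := by
  classical
  refine ⟨h.1, h.2.1, fun t ht => ?_⟩
  obtain ⟨S, s1, s2, s3⟩ := h.2.2 (fun n => t (n * n + n))
    (ht.comp (strictMono_nat_of_lt_succ fun n => by nlinarith))
  refine ⟨S, s1, s2, fun F f1 f2 => ?_⟩
  rcases F.eq_empty_or_nonempty with rfl | f3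
  · exact Frequently.of_forall fun _ _ h => h.elim
  refine frequently_atTop.2 fun l => ?_
  obtain ⟨n, n1, n2⟩ := frequently_atTop.1 (s3 F f1 f2 f3) (l + f2.toFinset.card + 1)
  by_contra h1
  push Not at h1
  choose! x x1 i i1 i2 using h1
  have h2 := Finset.card_le_card_of_injOn (s := Finset.Ico n (n * n + n))
    (t := f2.toFinset.biUnion fun x => (Finset.range (t (n * n + n))).filter (x · = true)) i
    (fun k hk => by
      simp only [Finset.coe_Ico, mem_Ico] at hk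
      have h : l ≤ k := by omega
      simp only [Finset.coe_biUnion, Finite.coe_toFinset, mem_iUnion, Finset.coe_filter,
        Finset.mem_range, mem_ofPred_eq]
      exact ⟨x k, x1 k h, (i1 k h).2.trans_le (ht.monotone hk.2), by simpa using i2 k h⟩)
    fun k hk k' hk' h => by
      simp only [Finset.coe_Ico, mem_Ico] at hk hk'
      have a1 := ht.lt_iff_lt.1 ((i1 k (by omega)).1.trans_lt (h ▸ (i1 k' (by omega)).2))
      have a2 := ht.lt_iff_lt.1 ((i1 k' (by omega)).1.trans_lt (h ▸ (i1 k (by omega)).2))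
      omega
  have h3 := h2.trans (Finset.card_biUnion_le_card_mul _ _ n fun x hx => by
    rw [← Nat.count_eq_card_filter_range]
    exact Nat.le_nth_of_count_le (n2 x (by simpa using hx)))
  simp only [Nat.card_Ico] at h3
  have : f2.toFinset.card * n < n * n := Nat.mul_lt_mul_of_pos_right (by omega) (by omega)
  omega

def SG (Z : Type) [TopologicalSpace Z] : Prop := ∀ u : ℕ → ℕ → Set Z, (∀ n m, IsOpen (u n m)) →
  (∀ n, Ig (u n)) → ∃ g : ℕ → ℕ, ∀ F : Set Z, F.Finite → ∃ᶠ n in atTop, F ⊆ u n (g n)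

def GG (Y : Type) [TopologicalSpace Y] : Prop := ∀ 𝒱 : ℕ → Set (Set Y),
  (∀ i, ∀ V ∈ 𝒱 i, IsOpen V) → (∀ i, ∀ F : Set Y, F.Finite → ∃ V ∈ 𝒱 i, F ⊆ V) →
    ∃ V : ℕ → Set Y, (∀ i, V i ∈ 𝒱 i) ∧ Ig V

theorem gg_of {Y : Type} [TopologicalSpace Y] [T1Space Y] [Infinite Y]
    (h : Cho (Om (Op Y)) (Ga (Op Y))) : GG Y := by
  intro 𝒱 v1 v2
  let y := Infinite.natEmbedding Y
  have h1 : ∀ F : Set Y, F.Finite → ∃ W ∈ {W | ∃ n, ∃ V : ℕ → Set Y, (∀ i, V i ∈ 𝒱 i) ∧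
      W = (⋂ i ∈ Iic n, V i) \ {y n}}, F ⊆ W := fun F hF => by
    obtain ⟨n, hn⟩ := (hF.preimage y.injective.injOn).exists_notMem
    choose V h1 h2 using fun i => v2 i F hF
    exact ⟨_, ⟨n, V, h1, rfl⟩, subset_sdiff_singleton (subset_iInter₂ fun i _ => h2 i) hn⟩
  refine (h _ ⟨⟨?_, eq_univ_of_forall fun z => (h1 {z} (finite_singleton z)).imp
    fun _ h => ⟨h.1, h.2 rfl⟩, ?_⟩, h1⟩).elim fun 𝒲 ⟨w1, w2⟩ => ?_
  · rintro _ ⟨n, V, h1, rfl⟩
    exact ((finite_Iic n).isOpen_biInter fun i _ => v1 i _ (h1 i)).sdiff isClosed_singleton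
  · rintro ⟨n, V, -, h⟩
    exact (h.le (mem_univ (y n))).2 rfl
  · obtain ⟨w, w3, w4⟩ := ga_en w2
    choose n V a1 a2 using fun k => w1 (w3 k)
    have a3 : ∀ i, ∃ k, i ≤ k ∧ i ≤ n k := fun i => ((eventually_ge_atTop i).and
      (((eventually_all_finite (finite_Iio i)).2 fun j _ => w4 (y j)).mono fun k hk =>
        not_lt.1 fun h => ((a2 k).le (hk _ h)).2 rfl)).exists
    choose k k1 k2 using a3
    exact ⟨fun i => V (k i) i, fun i => a1 _ _, fun z => ((tend k1).eventually (w4 z)).mono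
      fun i hi => mem_iInter₂.1 ((a2 _).le hi).1 i (k2 i)⟩

theorem sg_of {Z : Type} [TopologicalSpace Z] (h : S1 (Ga (Op Z)) (Om (Op Z))) : SG Z := by
  have h1 : ∀ u : ℕ → ℕ → Set Z, (∀ n m, IsOpen (u n m)) → (∀ n, Ig (u n)) →
      ∃ g : ℕ → ℕ, ∀ F : Set Z, F.Finite → ∃ n, F ⊆ u n (g n) := fun u u1 u2 => by
    by_cases h1 : ∃ n m, u n m = Set.univ
    · obtain ⟨n, m, h1⟩ := h1
      exact ⟨fun _ => m, fun F _ => ⟨n, h1 ▸ subset_univ _⟩⟩
    · push Not at h1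
      obtain ⟨U, h2, h3⟩ := h (fun n => range (u n)) fun n => ga_of (u1 n) (h1 n) (u2 n)
      choose g hg using h2
      refine ⟨g, fun F hF => ?_⟩
      obtain ⟨_, ⟨n, rfl⟩, h4⟩ := h3.2 F hF
      exact ⟨n, hg n ▸ h4⟩
  intro u u1 u2
  choose g hg using fun a : ℕ => h1 (fun n => u (a.pair n)) (fun _ _ => u1 _ _) fun _ => u2 _
  refine ⟨fun n => g n.unpair.1 n.unpair.2, fun F hF => frequently_atTop.2 fun a => ?_⟩
  obtain ⟨n, hn⟩ := hg a F hF
  exact ⟨a.pair n, Nat.left_le_pair _ _, by simpa using hn⟩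

theorem of_sg {Z : Type} [TopologicalSpace Z] (h : ∀ u : ℕ → ℕ → Set Z, (∀ n m, IsOpen (u n m)) →
    (∀ n, Ig (u n)) → ∃ g : ℕ → ℕ, ∀ F : Set Z, F.Finite → ∃ n, F ⊆ u n (g n)) :
    S1 (Ga (Op Z)) (Om (Op Z)) := fun 𝒰 h𝒰 => by
  choose u u1 u2 using fun n => ga_en (h𝒰 n)
  obtain ⟨g, hg⟩ := h u (fun n m => (h𝒰 n).1.1 (u1 n m)) u2
  refine ⟨fun n => u n (g n), fun n => u1 _ _, cov_of (fun n => (h𝒰 n).1.1 (u1 n _))
    (fun n h => (h𝒰 n).1.2.2 (h ▸ u1 n _)) fun z => (hg {z} (finite_singleton z)).imp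
      fun n hn => hn rfl, fun F hF => ?_⟩
  obtain ⟨n, hn⟩ := hg F hF
  exact ⟨_, ⟨n, rfl⟩, hn⟩

def Ma (ι : Type) : Prop := ∀ h : ι → ℕ → ℕ, ∃ g : ℕ → ℕ, ∀ i, ∃ᶠ n in atTop, g n = h i n

theorem mct (ι : Type) [Countable ι] [Nonempty ι] : Ma ι := fun h => by
  obtain ⟨e, he⟩ := exists_surjective_nat ι
  exact ⟨fun n => h (e n.unpair.1) n, he.forall.2 fun i => frequently_atTop.2 fun a =>
    ⟨i.pair a, Nat.right_le_pair _ _, by simp⟩⟩

theorem mcov {ι : Type} (hι : #ι < covM) : Ma ι := fun h => by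
  by_contra h1
  push Not at h1
  refine (hι.trans_le (csInf_le' ⟨range fun i => {g | ∃ᶠ n in atTop, g n = h i n}ᶜ, ?_,
    eq_univ_of_forall fun g => ?_, rfl⟩)).not_ge mk_range_le
  · rintro _ ⟨i, rfl⟩
    simp only [IsMeagre, compl_compl, frequently_atTop, ofPred_forall]
    refine countable_iInter_mem.2 fun k => residual_of_dense_open ?_ ?_
    · rw [ofPred_exists]
      exact isOpen_iUnion fun n => isOpen_const.inter
        ((isOpen_discrete {h i n}).preimage (continuous_apply (A := fun _ : ℕ => ℕ) n))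
    · refine (PiNat.isTopologicalBasis_cylinders fun _ => ℕ).dense_iff.2 ?_
      rintro _ ⟨x, m, rfl⟩ -
      exact ⟨update x (max m k) (h i (max m k)), fun j hj => update_of_ne (by omega) _ _,
        max m k, le_max_right _ _, update_self ..⟩
  · obtain ⟨i, hi⟩ := h1 g
    exact ⟨_, ⟨i, rfl⟩, by simpa using hi⟩

variable {Y : Type} [TopologicalSpace Y]

theorem sgs {S : Type} [TopologicalSpace S] (hS : Ma (Finset S)) (hY : GG Y) : SG (S × Y) := by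
  classical
  intro u u1 u2
  have h1 : ∀ F : Finset S, ∃ h : ℕ → ℕ, Ig fun n => ⋂ s ∈ F, Prod.mk s ⁻¹' u n (h n) := fun F => by
    obtain ⟨V, v1, v2⟩ := hY (fun n => range fun m => ⋂ s ∈ F, Prod.mk s ⁻¹' u n m) (by
      rintro n _ ⟨m, rfl⟩
      exact isOpen_biInter_finset fun s _ => (u1 n m).preimage (by fun_prop)) fun n G hG => by
        obtain ⟨m, hm⟩ := ((eventually_all_finite hG).2 fun y _ =>
          (eventually_all_finset F).2 fun s _ => u2 n (s, y)).exists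
        exact ⟨_, ⟨m, rfl⟩, fun y hy => mem_iInter₂.2 (hm y hy)⟩
    choose h hh using v1
    exact ⟨h, by simpa only [hh] using v2⟩
  choose h hh using h1
  obtain ⟨g, hg⟩ := hS h
  refine ⟨g, fun H hH => ((hg (hH.image Prod.fst).toFinset).and_eventually
    ((eventually_all_finite hH).2 fun z _ => hh (hH.image Prod.fst).toFinset z.2)).mono
      fun n hn z hz => ?_⟩
  rw [hn.1]
  exact mem_iInter₂.1 (hn.2 z hz) z.1 (by simpa using ⟨z.2, hz⟩)

theorem finE (m : ℕ) : {x : ℕ → Bool | ∀ i ≥ m, x i = false}.Finite := by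
  refine Set.Finite.of_finite_image (f := fun x (i : Fin m) => x i) (toFinite _) ?_
  intro x hx y hy h
  funext i
  by_cases hi : i < m
  · exact congrFun h ⟨i, hi⟩
  · rw [hx i (not_lt.1 hi), hy i (not_lt.1 hi)]

theorem stage {κ : Cardinal.{0}} (hκ : κ.IsRegular) {X : Set (ℕ → Bool)} (hX : FU2 κ X)
    (hY : GG Y) {S : Set (ℕ → Bool)} (s1 : S ⊆ X) (s2 : #S < κ) (hS : SG (S × Y))
    (W : ℕ → ℕ → Set ((ℕ → Bool) × Y)) (w1 : ∀ n m, IsOpen (W n m))
    (w2 : ∀ n, ∀ x ∈ X ∪ Fn, ∀ y, ∀ᶠ m in atTop, (x, y) ∈ W n m) :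
    ∃ (g : ℕ → ℕ) (T : Set (ℕ → Bool)), (T ⊆ X ∧ #T < κ) ∧ S ⊆ T ∧ ∀ F ⊆ (X ∪ Fn) \ (T \ S),
      F.Finite → ∀ G : Set Y, G.Finite → ∃ n, F ×ˢ G ⊆ W n (g n) := by
  classical
  obtain ⟨V, v1, v2⟩ := hY (fun i => {V | IsOpen V ∧ ∃ m ≥ i, ∃ l,
    {x | ∀ j ∈ Ico i l, x j = false} ×ˢ V ⊆ W i.unpair.1 m}) (fun _ _ h => h.1) fun i G hG => by
      obtain ⟨m, m1, m2⟩ := ((eventually_ge_atTop i).and ((eventually_all_finite (finE i)).2
        fun x hx => (eventually_all_finite hG).2 fun y _ => w2 i.unpair.1 x (Or.inr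
          ((finite_Iio i).subset fun j hj => show j < i from not_le.1 fun h => by simp [hx j h] at hj))
            y)).exists
      obtain ⟨u, v, u1, u2, u3, u4, u5⟩ := generalized_tube_lemma (finE i).isCompact hG.isCompact
        (w1 i.unpair.1 m) fun z hz => m2 z.1 hz.1 z.2 hz.2
      have c1 : ∀ l, IsClosed {x : ℕ → Bool | ∀ j ∈ Ico i l, x j = false} := fun l => by
        simp only [ofPred_forall]
        exact isClosed_iInter fun j => isClosed_iInter fun _ =>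
          isClosed_eq (continuous_apply j) continuous_const
      obtain ⟨l, hl⟩ := exists_subset_nhds_of_isCompact' (V := fun l => {x : ℕ → Bool |
        ∀ j ∈ Ico i l, x j = false}) (directed_of_isDirected_le fun a b hab x hx j hj =>
          hx j (Ico_subset_Ico_right hab hj)) (fun l => (c1 l).isCompact) c1 fun x hx =>
            u1.mem_nhds (u3 fun j hj => mem_iInter.1 hx (j + 1) j ⟨hj, j.lt_succ_self⟩)
      exact ⟨v, ⟨u2, m, m1, l, (prod_mono hl subset_rfl).trans u5⟩, u4⟩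
  choose _ m m1 l m2 using v1
  obtain ⟨j, hj⟩ := hS (fun n j => Prod.map Subtype.val id ⁻¹' W n (m (n.pair j)))
    (fun _ _ => (w1 _ _).preimage (by fun_prop)) fun n z =>
      (tend fun j => (Nat.right_le_pair n j).trans (m1 _)).eventually (w2 n _ (Or.inl (s1 z.1.2)) _)
  let ι : ℕ → ℕ := fun n => n.pair (j n)
  have h1 : ∀ E : Finset S, ∃ T ⊆ X, #T < κ ∧ ∀ F ⊆ X \ T, F.Finite → ∀ G : Set Y, G.Finite →
      ∀ k, ∃ n ≥ k, (∀ x ∈ F, ∀ i ∈ Ico (ι n) (l (ι n)), x i = false) ∧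
        ∀ y ∈ G, y ∈ V (ι n) ∧ ∀ s ∈ E, (s.1, y) ∈ W n (m (ι n)) := fun E => by
    obtain ⟨U, u1, u2⟩ := hY (fun k => {U | ∃ n ≥ k, U = ⋂ s ∈ E, Prod.mk s.1 ⁻¹' W n (m (ι n))})
      (by
        rintro k _ ⟨n, -, rfl⟩
        exact isOpen_biInter_finset fun s _ => (w1 _ _).preimage (by fun_prop)) fun k G hG => by
        obtain ⟨n, n1, n2⟩ := frequently_atTop.1 (hj _ (E.finite_toSet.prod hG)) k
        exact ⟨_, ⟨n, n1, rfl⟩, fun y hy => mem_iInter₂.2 fun s hs => n2 (mk_mem_prod hs hy)⟩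
    choose a a1 a2 using u1
    let d : ℕ → ℕ := fun t => (fun k => k + l (ι (a k)) + 1)^[t] 0
    have d1 : ∀ t, d (t + 1) = d t + l (ι (a (d t))) + 1 := fun t => iterate_succ_apply' _ _ _
    have d2 : StrictMono d := strictMono_nat_of_lt_succ fun t => by rw [d1]; omega
    obtain ⟨T, t1, t2, t3⟩ := hX.2.2 d d2
    refine ⟨T, t1, t2, fun F f1 f2 G hG k => ?_⟩
    have i1 : ∀ k, k ≤ ι (a k) := fun k => (a1 k).trans (Nat.left_le_pair _ _)
    obtain ⟨t, h1, h2, h3⟩ := ((t3 F f1 f2).and_eventually (d2.tendsto_atTop.eventually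
      ((eventually_ge_atTop k).and ((eventually_all_finite hG).2 fun y _ =>
        ((tend i1).eventually (v2 y)).and (u2 y))))).exists
    exact ⟨a (d t), h2.trans (a1 _), fun x hx i hi => h1 x hx i ⟨(i1 _).trans hi.1,
      hi.2.trans (by rw [d1]; omega)⟩, fun y hy => ⟨(h3 y hy).1,
        mem_iInter₂.1 ((a2 _).le (h3 y hy).2)⟩⟩
  choose T t1 t2 t3 using h1
  refine ⟨fun n => m (ι n), S ∪ ⋃ E, T E, ⟨union_subset s1 (iUnion_subset t1),
    (mk_union_le _ _).trans_lt (add_lt_of_lt hκ.aleph0_le s2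
      ((card_iUnion_lt_iff_forall_of_isRegular hκ ?_).2 t2))⟩, subset_union_left,
    fun F f1 f2 G hG => ?_⟩
  · rcases finite_or_infinite S with h | h
    · exact (lt_aleph0_of_finite _).trans_le hκ.aleph0_le
    · rwa [mk_finset_of_infinite]
  · let E := (f2.preimage (Subtype.val_injective (p := (· ∈ S))).injOn).toFinset
    obtain ⟨k, hk⟩ := ((f2.inter_of_left Fn).biUnion (t := fun x => {n | x n = true})
      fun x hx => hx.2).bddAbove
    obtain ⟨n, n1, n2, n3⟩ := t3 E (F ∩ (X \ T E)) inter_subset_right (f2.inter_of_left _) G hG (k + 1)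
    refine ⟨n, fun z hz => ?_⟩
    by_cases h1 : z.1 ∈ S
    · exact (n3 _ hz.2).2 ⟨_, h1⟩ (by simpa [E] using hz.1)
    have h2 := m2 (ι n)
    simp only [ι, Nat.unpair_pair] at h2
    refine h2 ⟨fun i hi => ?_, (n3 _ hz.2).1⟩
    rcases (f1 hz.1).1 with h | h
    · exact n2 _ ⟨hz.1, h, fun h3 => (f1 hz.1).2 ⟨Or.inr (mem_iUnion.2 ⟨E, h3⟩), h1⟩⟩ i hi
    · by_contra h3
      have := hk (mem_biUnion ⟨hz.1, h⟩ (show z.1 i = true by simpa using h3))
      have := (Nat.left_le_pair n (j n)).trans hi.1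
      omega

theorem main {κ : Cardinal.{0}} (hκ : κ.IsRegular) {X : Set (ℕ → Bool)} (hX : FU2 κ X)
    (hY : GG Y) (hS : ∀ S ⊆ X, #S < κ → S.Infinite → SG (S × Y)) :
    S1 (Ga (Op (↥(X ∪ Fn) × Y))) (Om (Op (↥(X ∪ Fn) × Y))) := by
  refine of_sg fun u u1 u2 => ?_
  have hi : IsInducing (Prod.map (Subtype.val : ↥(X ∪ Fn) → ℕ → Bool) (id : Y → Y)) :=
    IsInducing.subtypeVal.prodMap IsInducing.id
  choose W w1 w2 using fun n m => hi.isOpen_iff.1 (u1 n m)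
  choose g T t1 t2 t3 using fun (i : ℕ) (S : {S : Set (ℕ → Bool) // S ⊆ X ∧ #S < κ}) =>
    stage hκ hX hY S.2.1 S.2.2 (S.1.finite_or_infinite.elim
      (fun h => haveI := h.to_subtype; sgs (mct _) hY) (hS _ S.2.1 S.2.2))
      (fun n => W (i.pair n)) (fun _ _ => w1 _ _) fun n x hx y =>
        (u2 (i.pair n) (⟨x, hx⟩, y)).mono fun m hm => (w2 _ m).ge hm
  let S : ℕ → {S : Set (ℕ → Bool) // S ⊆ X ∧ #S < κ} := fun i =>
    Nat.rec ⟨∅, empty_subset _, by simpa using hκ.pos⟩ (fun i S => ⟨T i S, t1 i S⟩) i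
  have s1 : Monotone fun i => (S i).1 := monotone_nat_of_le_succ fun i => t2 i _
  refine ⟨fun n => g n.unpair.1 (S n.unpair.1) n.unpair.2, fun H hH => ?_⟩
  have h1 := hH.image fun z => z.1.1
  obtain ⟨i, hi⟩ : ∃ i, ∀ x ∈ (fun z => z.1.1) '' H, x ∉ (S (i + 1)).1 \ (S i).1 := by
    by_contra h
    push Not at h
    choose x x1 x2 using h
    exact infinite_of_injective_forall_mem (f := x) (Injective.of_lt_imp_ne fun i j h h' =>
      (x2 j).2 (s1 h (h' ▸ (x2 i).1))) x1 h1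
  obtain ⟨n, hn⟩ := t3 i (S i) _ (fun x hx => ⟨by obtain ⟨z, -, rfl⟩ := hx; exact z.1.2, hi x hx⟩)
    h1 _ (hH.image Prod.snd)
  refine ⟨i.pair n, fun z hz => (w2 _ _).le ?_⟩
  simp only [Nat.unpair_pair]
  exact hn ⟨⟨z, hz, rfl⟩, z, hz, rfl⟩

end Pool.Agent.H.MP_fc6768_gt
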