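import Mathlib
import Pool.Agent.H.MP_fc6768_gt.A
import Pool.Agent.H.MP_7b7e09_gt.A

set_option autoImplicit false

namespace Pool.Agent.H.MP_fc6768_gt

open Set Filter Topology Cardinal Function Pool.Agent.H.MP_9c4169_gt Pool.Agent.H.MP_7b7e09_gt

/-- groupwise dense families -/
def GD (𝒢 : Set (Set ℕ)) : Prop :=
  (∀ Z ∈ 𝒢, Z.Infinite) ∧ (∀ Z ∈ 𝒢, ∀ W : Set ℕ, W.Infinite → (W \ Z).Finite → W ∈ 𝒢) ∧
    ∀ t : ℕ → ℕ, StrictMono t → ∃ H : Set ℕ, H.Infinite ∧ ⋃ k ∈ H, Ico (t k) (t (k + 1)) ∈ 𝒢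

/-- the groupwise density number -/
noncomputable def gw : Cardinal.{0} :=
  sInf {c | ∃ 𝓕 : Set (Set (Set ℕ)), (∀ 𝒢 ∈ 𝓕, GD 𝒢) ∧ ⋂₀ 𝓕 = ∅ ∧ #𝓕 = c}

theorem led {κ : Cardinal.{0}} (hκ : κ.IsRegular) {X : Set (ℕ → Bool)} (hX : FU2 κ X) :
    κ ≤ dd := not_lt.1 fun h => by
  obtain ⟨D, d1, d2⟩ := csInf_mem (s := {c | ∃ D : Set (ℕ → ℕ),
    (∀ f : ℕ → ℕ, ∃ g ∈ D, ∀ᶠ n in atTop, f n ≤ g n) ∧ #D = c})
    ⟨_, Set.univ, fun f => ⟨f, trivial, by simp⟩, rfl⟩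
  let d : (ℕ → ℕ) → ℕ → ℕ := fun g t => (fun k => k + g k + 1)^[t] 0
  have h1 : ∀ g t, d g (t + 1) = d g t + g (d g t) + 1 := fun g t => iterate_succ_apply' _ _ _
  have h2 : ∀ g, StrictMono (d g) := fun g =>
    strictMono_nat_of_lt_succ fun t => by rw [h1]; omega
  choose S s1 s2 s3 using fun g : D => hX.2.2 _ (h2 g)
  obtain ⟨x, x1, x2⟩ := not_subset.1 fun h3 : X ⊆ ⋃ g, S g => (((card_iUnion_lt_iff_forall_of_isRegular
    hκ (d2.trans_lt h)).2 s2).trans_le hX.2.1).not_ge (mk_le_mk_of_subset h3)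
  choose f f1 f2 using fun k => (hX.1 x x1).exists_gt k
  obtain ⟨g, g1, g2⟩ := d1 f
  obtain ⟨t, t1, t2⟩ := ((s3 ⟨g, g1⟩ {x} (singleton_subset_iff.2 ⟨x1, fun h =>
    x2 (mem_iUnion.2 ⟨_, h⟩)⟩) (finite_singleton x)).and_eventually
      ((h2 g).tendsto_atTop.eventually g2)).exists
  have := t1 x rfl (f (d g t)) ⟨(f2 _).le, by rw [h1]; dsimp only; omega⟩
  simp [show x _ = true from f1 _] at this

variable {Y : Type} [TopologicalSpace Y]

theorem sgg {S : Type} [TopologicalSpace S] [Infinite S] (h1 : #S < gw) (h2 : #S < dd) (hY : GG Y) :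
    SG (S × Y) := by
  classical
  intro u u1 u2
  let 𝒢 : S → Set (Set ℕ) := fun s => {Z | Z.Infinite ∧ ∃ f : ℕ → ℕ, ∀ y, ∀ᶠ n in atTop,
    ∀ m ∈ Z, f n ≤ m → (s, y) ∈ u n m}
  have g1 : ∀ s, GD (𝒢 s) := fun s => by
    refine ⟨fun Z h => h.1, fun Z ⟨_, f, hf⟩ W w1 w2 => ?_, fun t ht => ?_⟩
    · obtain ⟨b, hb⟩ := w2.bddAbove
      refine ⟨w1, fun n => f n + b + 1, fun y => (hf y).mono fun n hn m m1 (m2 : f n + b + 1 ≤ m) =>
        hn m ?_ (by omega)⟩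
      by_contra h
      have := hb ⟨m1, h⟩
      omega
    · obtain ⟨V, v1, v2⟩ := hY (fun n => {V | ∃ k ≥ n,
        V = ⋂ i ∈ Iic n, ⋂ m ∈ Ico (t k) (t (k + 1)), Prod.mk s ⁻¹' u i m}) (by
          rintro n _ ⟨k, -, rfl⟩
          exact (finite_Iic n).isOpen_biInter fun i _ => (finite_Ico _ _).isOpen_biInter
            fun m _ => (u1 i m).preimage (by fun_prop)) fun n G hG => by
          obtain ⟨l, hl⟩ := eventually_atTop.1 ((eventually_all_finite hG).2 fun y _ =>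
            (eventually_all_finite (finite_Iic n)).2 fun i _ => u2 i (s, y))
          exact ⟨_, ⟨n + l, Nat.le_add_right _ _, rfl⟩, fun y hy => mem_iInter₂.2 fun i hi =>
            mem_iInter₂.2 fun m hm => hl m ((Nat.le_add_left _ _).trans
              ((ht.id_le _).trans hm.1)) y hy i hi⟩
      choose k k1 k2 using v1
      refine ⟨range k, infinite_of_forall_exists_gt fun n => ⟨_, ⟨n + 1, rfl⟩, k1 _⟩,
        infinite_of_forall_exists_gt fun n => ⟨t (k (n + 1)), mem_biUnion ⟨n + 1, rfl⟩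
          ⟨le_rfl, ht (Nat.lt_succ_self _)⟩, (k1 _).trans (ht.id_le _)⟩,
        fun i => (Finset.range i).sup fun n => t (k n + 1), fun y => ?_⟩
      obtain ⟨N, hN⟩ := eventually_atTop.1 (v2 y)
      refine (eventually_ge_atTop N).mono fun i hi m m1 m2 => ?_
      obtain ⟨_, ⟨n, rfl⟩, m3⟩ := mem_iUnion₂.1 m1
      have m4 : i ≤ n := not_lt.1 fun h => m3.2.not_ge
        ((Finset.le_sup (f := fun n => t (k n + 1)) (Finset.mem_range.2 h)).trans m2)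
      exact mem_iInter₂.1 (mem_iInter₂.1 ((k2 n).le (hN n (hi.trans m4))) i m4) m m3
  obtain ⟨Z, hZ⟩ := nonempty_iff_ne_empty.2 fun h : ⋂₀ range 𝒢 = ∅ =>
    (h1.trans_le (csInf_le' ⟨_, forall_mem_range.2 g1, h, rfl⟩)).not_ge mk_range_le
  have z1 : ∀ s, Z ∈ 𝒢 s := fun s => hZ _ ⟨s, rfl⟩
  choose f hf using fun s => (z1 s).2
  obtain ⟨g, hg⟩ : ∃ g : ℕ → ℕ, ∀ F : Finset S, ∃ᶠ n in atTop, F.sup (f · n) < g n := by
    by_contra h4
    push Not at h4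
    rw [← mk_finset_of_infinite] at h2
    refine (h2.trans_le (csInf_le' ⟨range fun (F : Finset S) n => F.sup (f · n), fun g => ?_,
      rfl⟩)).not_ge mk_range_le
    obtain ⟨F, hF⟩ := h4 g
    exact ⟨_, ⟨F, rfl⟩, by simpa using hF⟩
  choose a a1 a2 using (z1 (Classical.arbitrary S)).1.exists_gt
  refine ⟨fun n => a (g n), fun H hH => ((hg (hH.image Prod.fst).toFinset).and_eventually
    ((eventually_all_finite hH).2 fun z _ => hf z.1 z.2)).mono fun n hn z hz =>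
      hn.2 z hz _ (a1 _) (((Finset.le_sup (f := (f · n)) ?_).trans hn.1.le).trans (a2 _).le)⟩
  simpa using ⟨z.2, hz⟩

theorem main' {κ : Cardinal.{0}} (hκ : κ.IsRegular) {X : Set (ℕ → Bool)} (hX : FU2 κ X)
    (hY : GG Y) (h : κ ≤ max covM gw ∨ ∀ S ⊆ X, #S < κ → S.Infinite →
      S1 (Ga (Op (S × Y))) (Om (Op (S × Y)))) :
    S1 (Ga (Op (↥(X ∪ Fn) × Y))) (Om (Op (↥(X ∪ Fn) × Y))) := by
  refine main hκ hX hY fun S s1 s2 s3 => ?_
  have := s3.to_subtype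
  rcases h with h | h
  · rcases le_max_iff.1 h with h | h
    · exact sgs (mcov (by rw [mk_finset_of_infinite]; exact s2.trans_le h)) hY
    · exact sgg (s2.trans_le h) (s2.trans_le (led hκ hX)) hY
  · exact sg_of (h S s1 s2 s3)

end Pool.Agent.H.MP_fc6768_gt
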